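import Pool.Agent.Lib.MP_09fff0_gt.Defs

/-! # MP_09fff0_gt: elementary facts on the products of weights -/

open MeasureTheory Set Filter Topology
open scoped ENNReal NNReal unitInterval

namespace MP09fff0

variable {X : Type} [MetricSpace X] {N : ℕ} {δ : ℝ} (W : Wt X N δ)

theorem Wt.φ_pos (hδ : 0 < δ) (k : ℕ) (x : X) : 0 < W.φ k x := lt_of_lt_of_le hδ (W.lo k x)

theorem Wt.pr_zero (x : X) : W.pr 0 x = 1 := by simp [Wt.pr]

theorem Wt.pr_succ (k : ℕ) (x : X) : W.pr (k + 1) x = W.pr k x * W.φ k x := by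
  simp [Wt.pr, Finset.prod_range_succ]

theorem Wt.pr_pos (hδ : 0 < δ) (k : ℕ) (x : X) : 0 < W.pr k x :=
  Finset.prod_pos fun j _ => W.φ_pos hδ j x

theorem Wt.pr_le_pow (hδ : 0 < δ) (k : ℕ) (x : X) : W.pr k x ≤ (1 / 2) ^ k := by
  have : W.pr k x ≤ ∏ _j ∈ Finset.range k, (1 / 2 : ℝ) :=
    Finset.prod_le_prod (fun j _ => (W.φ_pos hδ j x).le) (fun j _ => W.hi j x)
  simpa using this

theorem Wt.pr_succ_le (hδ : 0 < δ) (k : ℕ) (x : X) : W.pr (k + 1) x ≤ W.pr k x / 2 := by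
  rw [W.pr_succ]
  have h1 := W.pr_pos hδ k x
  have h2 := W.hi k x
  nlinarith

theorem Wt.pr_anti (hδ : 0 < δ) (x : X) {j k : ℕ} (h : j ≤ k) : W.pr k x ≤ W.pr j x := by
  have : Antitone fun k => W.pr k x := antitone_nat_of_succ_le fun k => by
    have h1 := W.pr_succ_le hδ k x
    have h2 := W.pr_pos hδ k x
    linarith
  exact this h

theorem Wt.pr_add_le (hδ : 0 < δ) (k m : ℕ) (x : X) : W.pr (k + m) x ≤ (1 / 2) ^ m * W.pr k x := by
  induction m with
  | zero => simp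
  | succ m ih =>
    have h1 := W.pr_succ_le hδ (k + m) x
    rw [← add_assoc, pow_succ]
    linarith

theorem Wt.le_pr_add (hδ : 0 < δ) (k m : ℕ) (x : X) : δ ^ m * W.pr k x ≤ W.pr (k + m) x := by
  induction m with
  | zero => simp
  | succ m ih =>
    rw [← add_assoc, W.pr_succ, pow_succ]
    have h1 := W.lo (k + m) x
    have h2 := W.pr_pos hδ (k + m) x
    have h3 := W.pr_pos hδ k x
    calc δ ^ m * δ * W.pr k x = (δ ^ m * W.pr k x) * δ := by ring
      _ ≤ W.pr (k + m) x * δ := by gcongr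
      _ ≤ W.pr (k + m) x * W.φ (k + m) x := by gcongr

theorem sum_pow_le (hN : 2 ≤ N) (k : ℕ) :
    ∑ j ∈ Finset.range k, (N : ℝ) ^ (j + 1) ≤ 2 * (N : ℝ) ^ k := by
  have hN' : (2 : ℝ) ≤ N := by exact_mod_cast hN
  induction k with
  | zero => simp
  | succ k ih =>
    rw [Finset.sum_range_succ]
    have : (0 : ℝ) < (N : ℝ) ^ k := by positivity
    rw [pow_succ]
    nlinarith

/-- Product weights are comparable at points which are close. -/
theorem Wt.pr_lip (hδ : 0 < δ) (hN : 2 ≤ N) (k : ℕ) (x y : X) (h : dist x y ≤ 1 / (N : ℝ) ^ k) :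
    W.pr k y ≤ Real.exp 1 * W.pr k x := by
  have hN' : (2 : ℝ) ≤ N := by exact_mod_cast hN
  have h1 : W.pr k y ≤
      ∏ j ∈ Finset.range k, (Real.exp ((N : ℝ) ^ (j + 1) * dist x y / 2) * W.φ j x) :=
    Finset.prod_le_prod (fun j _ => (W.φ_pos hδ j y).le) (fun j _ => W.lip j x y)
  rw [Finset.prod_mul_distrib, ← Real.exp_sum] at h1
  refine h1.trans ?_
  have h2 : 0 < W.pr k x := W.pr_pos hδ k x
  change _ * W.pr k x ≤ _
  gcongr
  rw [← Finset.sum_div, ← Finset.sum_mul]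
  have h3 := sum_pow_le (N := N) hN k
  have hk : (0 : ℝ) < (N : ℝ) ^ k := by positivity
  have h4 : (∑ j ∈ Finset.range k, (N : ℝ) ^ (j + 1)) * dist x y ≤ 2 * (N : ℝ) ^ k * (1 / (N : ℝ) ^ k) := by
    gcongr
  have h5 : 2 * (N : ℝ) ^ k * (1 / (N : ℝ) ^ k) = 2 := by field_simp
  linarith

end MP09fff0
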