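import Pool.Agent.Lib.MP_09fff0_gt.Det.Basic

/-! # MP_09fff0_gt: every chain is expensive (lower bound of the chain metric)

Proof: let `K` be such that all steps of `c` in `[a, b)` with nonzero length are longer than
`1 / N ^ (K + 1)`. Show the statement (for all `a ≤ b` in the window) by downward induction on `k`,
starting with all `k ≥ K`: there the first nonzero step `i` of the chain (so `c i = c a`) costs at
least `pr k (c i)` by `h1`.
Induction step `k + 1 → k`: replace `b` by the least `b` with `1 / N ^ k ≤ dist (c a) (c b)`; then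
`dist (c a) (c i) < 1 / N ^ k` for `a ≤ i < b`, hence `exp (-1) * pr k (c a) ≤ pr k (c i)` by `pr_lip`.
Case 1: some step `i ∈ [a, b)` is longer than `1 / N ^ (k + 1)`: it costs at least `pr k (c i)`.
Case 2: all steps are at most `1 / N ^ (k + 1)`. Every `c i`, `a ≤ i < b`, is in `Bad X N k`: one of the two
ends `c a`, `c b` is at distance `≥ 1 / (2 N ^ k)` of `c i` and is reached by steps `≤ 1 / N ^ (k+1)`
(backwards resp. forwards along the chain). So `φ k (c i) = 1 / 2` and `pr (k+1) (c i) = pr k (c i) / 2`.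
Put `i_0 = a` and let `i_{s+1}` be the least `i > i_s` with `dist (c i_s) (c i) ≥ 1 / N ^ (k+1)`; then
`dist (c i_s) (c i_{s+1}) ≤ 2 / N ^ (k+1)`. So there are at least `(N - 1) / 2 ≥ 6` such disjoint pieces
before `b` (`1 / N ^ k ≤ dist (c a) (c b) ≤ (2 r + 1) / N ^ (k+1)`), each costs by induction at least
`exp (-1) * pr (k+1) (c i_s) = exp (-1) * pr k (c i_s) / 2 ≥ exp (-1) * exp (-1) * pr k (c a) / 2`,
and `6 * exp (-1) / 2 ≥ 1`. -/

open MeasureTheory Set Filter Topology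
open scoped ENNReal NNReal unitInterval

namespace MP09fff0

theorem chain_base {X : Type} [MetricSpace X] {N : ℕ} (hN : 13 ≤ N) {δ : ℝ} (hδ : 0 < δ)
    (W : Wt X N δ) (ρ : X → X → ℝ) (h0 : ∀ a b, 0 ≤ ρ a b)
    (h1 : ∀ a b k, 1 / (N : ℝ) ^ (k + 1) < dist a b → W.pr k a ≤ ρ a b)
    (c : ℕ → X) (a b k : ℕ) (hab : a ≤ b) (hd : 1 / (N : ℝ) ^ k ≤ dist (c a) (c b))
    (hK : ∀ i, i < b → c i ≠ c (i + 1) → 1 / (N : ℝ) ^ (k + 1) < dist (c i) (c (i + 1))) :
    Real.exp (-1) * W.pr k (c a) ≤ ∑ i ∈ Finset.Ico a b, ρ (c i) (c (i + 1)) := by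
  have hNp : (0 : ℝ) < N := by
    have : 0 < N := by omega
    exact_mod_cast this
  have hne : c a ≠ c b := by
    intro h
    rw [h, dist_self] at hd
    have : 0 < 1 / (N : ℝ) ^ k := by positivity
    linarith
  obtain ⟨i, hai, hib, hci, hstep⟩ : ∃ i, a ≤ i ∧ i < b ∧ c i = c a ∧ c i ≠ c (i + 1) := by
    by_contra hcon
    push Not at hcon
    have : ∀ m, a + m ≤ b → c (a + m) = c a := by
      intro m
      induction m with
      | zero => intro _; rfl
      | succ m ih =>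
        intro hm
        have h2 := ih (by omega)
        have h3 := hcon (a + m) (by omega) (by omega) h2
        rw [← add_assoc, ← h3, h2]
    apply hne
    have h4 := this (b - a) (by omega)
    rw [show a + (b - a) = b by omega] at h4
    exact h4.symm
  have h2 := h1 _ _ k (hK i hib hstep)
  rw [hci] at h2
  have h3 : ρ (c i) (c (i + 1)) ≤ ∑ i ∈ Finset.Ico a b, ρ (c i) (c (i + 1)) :=
    Finset.single_le_sum (f := fun i => ρ (c i) (c (i + 1))) (fun j _ => h0 _ _)
      (Finset.mem_Ico.mpr ⟨hai, hib⟩)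
  rw [hci] at h3
  have h4 : Real.exp (-1) * W.pr k (c a) ≤ W.pr k (c a) := by
    have h5 := W.pr_pos hδ k (c a)
    have h6 : Real.exp (-1) ≤ 1 := Real.exp_le_one_iff.mpr (by norm_num)
    nlinarith
  linarith

theorem chain_chn {X : Type} [MetricSpace X] {s : ℝ} (c : ℕ → X) (a b : ℕ) (hab : a ≤ b)
    (h : ∀ i, a ≤ i → i < b → dist (c i) (c (i + 1)) ≤ s) :
    Chn s (c a) (c b) ∧ Chn s (c b) (c a) := by
  induction b, hab using Nat.le_induction with
  | base => exact ⟨Relation.ReflTransGen.refl, Relation.ReflTransGen.refl⟩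
  | succ b hb ih =>
    obtain ⟨h1, h2⟩ := ih fun i hi hib => h i hi (by omega)
    refine ⟨h1.tail (h b hb (by omega)), Relation.ReflTransGen.head ?_ h2⟩
    rw [dist_comm]
    exact h b hb (by omega)

theorem chain_step {X : Type} [MetricSpace X] {N : ℕ} (hN : 13 ≤ N) {δ : ℝ} (hδ : 0 < δ)
    (W : Wt X N δ) (ρ : X → X → ℝ) (h0 : ∀ a b, 0 ≤ ρ a b)
    (h1 : ∀ a b k, 1 / (N : ℝ) ^ (k + 1) < dist a b → W.pr k a ≤ ρ a b)
    (c : ℕ → X) (k B : ℕ)
    (ih : ∀ a b, a ≤ b → b ≤ B → 1 / (N : ℝ) ^ (k + 1) ≤ dist (c a) (c b) →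
      Real.exp (-1) * W.pr (k + 1) (c a) ≤ ∑ i ∈ Finset.Ico a b, ρ (c i) (c (i + 1)))
    (a b : ℕ) (hab : a ≤ b) (hbB : b ≤ B) (hd : 1 / (N : ℝ) ^ k ≤ dist (c a) (c b)) :
    Real.exp (-1) * W.pr k (c a) ≤ ∑ i ∈ Finset.Ico a b, ρ (c i) (c (i + 1)) := by
  classical
  have hN' : (13 : ℝ) ≤ N := by exact_mod_cast hN
  have hNp : (0 : ℝ) < N := by linarith
  have hNk : (0 : ℝ) < (N : ℝ) ^ k := by positivity
  have hNk1 : (0 : ℝ) < (N : ℝ) ^ (k + 1) := by positivity
  -- the least b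
  have hex : ∃ b', a ≤ b' ∧ 1 / (N : ℝ) ^ k ≤ dist (c a) (c b') := ⟨b, hab, hd⟩
  obtain ⟨hab', hd'⟩ := Nat.find_spec hex
  have hmin : ∀ i, a ≤ i → i < Nat.find hex → dist (c a) (c i) < 1 / (N : ℝ) ^ k := by
    intro i hi hi'
    have := Nat.find_min hex hi'
    push Not at this
    exact this hi
  have hb'b : Nat.find hex ≤ b := Nat.find_min' hex ⟨hab, hd⟩
  generalize Nat.find hex = b' at hab' hd' hmin hb'b
  have hsum : ∑ i ∈ Finset.Ico a b', ρ (c i) (c (i + 1)) ≤
      ∑ i ∈ Finset.Ico a b, ρ (c i) (c (i + 1)) :=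
    Finset.sum_le_sum_of_subset_of_nonneg (Finset.Ico_subset_Ico le_rfl hb'b)
      fun i _ _ => h0 _ _
  refine le_trans ?_ hsum
  have hcmp : ∀ i, a ≤ i → i < b' → Real.exp (-1) * W.pr k (c a) ≤ W.pr k (c i) := by
    intro i hi hi'
    have h2 := W.pr_lip hδ (by omega) k (c i) (c a) (by rw [dist_comm]; exact (hmin i hi hi').le)
    calc Real.exp (-1) * W.pr k (c a) ≤ Real.exp (-1) * (Real.exp 1 * W.pr k (c i)) := by gcongr
      _ = W.pr k (c i) := by
        rw [← mul_assoc, ← Real.exp_add]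
        simp
  by_cases hlong : ∃ i, a ≤ i ∧ i < b' ∧ 1 / (N : ℝ) ^ (k + 1) < dist (c i) (c (i + 1))
  · obtain ⟨i, hi, hi', hl⟩ := hlong
    have h3 : ρ (c i) (c (i + 1)) ≤ ∑ i ∈ Finset.Ico a b', ρ (c i) (c (i + 1)) :=
      Finset.single_le_sum (f := fun i => ρ (c i) (c (i + 1))) (fun j _ => h0 _ _)
        (Finset.mem_Ico.mpr ⟨hi, hi'⟩)
    exact (hcmp i hi hi').trans ((h1 _ _ k hl).trans h3)
  push Not at hlong
  have hhalf : ∀ i, a ≤ i → i < b' → W.pr (k + 1) (c i) = W.pr k (c i) / 2 := by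
    intro i hi hi'
    have hbad : c i ∈ Bad X N k := by
      rcases le_or_gt (1 / (2 * (N : ℝ) ^ k)) (dist (c i) (c a)) with h2 | h2
      · exact ⟨c a, (chain_chn c a i hi fun j hj hj' => hlong j hj (by omega)).2, h2⟩
      · refine ⟨c b', (chain_chn c i b' hi'.le fun j hj hj' => hlong j (by omega) hj').1, ?_⟩
        have h3 := dist_triangle (c a) (c i) (c b')
        rw [dist_comm (c a) (c i)] at h3
        have h4 : 1 / (N : ℝ) ^ k = 1 / (2 * (N : ℝ) ^ k) + 1 / (2 * (N : ℝ) ^ k) := by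
          field_simp
          norm_num
        linarith
    rw [W.pr_succ, W.bad k _ hbad]
    ring
  have hu : (13 : ℝ) * (1 / (N : ℝ) ^ (k + 1)) ≤ 1 / (N : ℝ) ^ k := by
    rw [pow_succ]
    have : (13 : ℝ) * (1 / ((N : ℝ) ^ k * N)) = (13 / N) * (1 / (N : ℝ) ^ k) := by
      field_simp
    rw [this]
    have h5 : (13 : ℝ) / N ≤ 1 := by rw [div_le_one hNp]; exact hN'
    have h6 : 0 < 1 / (N : ℝ) ^ k := by positivity
    nlinarith
  have hup : 0 < 1 / (N : ℝ) ^ (k + 1) := by positivity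
  generalize 1 / (N : ℝ) ^ (k + 1) = u at hu hup hlong ih
  have key : ∀ m : ℕ, m ≤ 6 → ∃ i, a ≤ i ∧ i ≤ b' ∧ dist (c a) (c i) ≤ 2 * m * u ∧
      (m : ℝ) * (Real.exp (-1) * (Real.exp (-1) * W.pr k (c a) / 2)) ≤
        ∑ j ∈ Finset.Ico a i, ρ (c j) (c (j + 1)) := by
    intro m
    induction m with
    | zero =>
      intro _
      exact ⟨a, le_rfl, hab', by simp, by simp⟩
    | succ m ihm =>
      intro hm
      obtain ⟨i, hi, hib, hdi, hs⟩ := ihm (by omega)
      have hm' : (m : ℝ) ≤ 5 := by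
        have : m ≤ 5 := by omega
        exact_mod_cast this
      have hdi' : dist (c a) (c i) ≤ 10 * u := by nlinarith
      have hib' : i < b' := by
        rcases hib.lt_or_eq with h2 | h2
        · exact h2
        · rw [h2] at hdi'
          linarith
      have hdb : u ≤ dist (c i) (c b') := by
        have h3 := dist_triangle (c a) (c i) (c b')
        linarith
      have hex2 : ∃ i', i < i' ∧ u ≤ dist (c i) (c i') := ⟨b', hib', hdb⟩
      obtain ⟨g1, g2⟩ := Nat.find_spec hex2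
      have g3 : Nat.find hex2 ≤ b' := Nat.find_min' hex2 ⟨hib', hdb⟩
      have g4 : ∀ j, i < j → j < Nat.find hex2 → dist (c i) (c j) < u := by
        intro j hj hj'
        have := Nat.find_min hex2 hj'
        push Not at this
        exact this hj
      generalize Nat.find hex2 = i' at g1 g2 g3 g4
      have g5 : dist (c i) (c i') ≤ 2 * u := by
        have h6 : dist (c i) (c (i' - 1)) ≤ u := by
          rcases (show i ≤ i' - 1 by omega).lt_or_eq with h7 | h7
          · exact (g4 _ h7 (by omega)).le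
          · rw [← h7, dist_self]; exact hup.le
        have h8 := hlong (i' - 1) (by omega) (by omega)
        rw [show i' - 1 + 1 = i' by omega] at h8
        have h9 := dist_triangle (c i) (c (i' - 1)) (c i')
        linarith
      refine ⟨i', by omega, g3, ?_, ?_⟩
      · have h9 := dist_triangle (c a) (c i) (c i')
        push_cast
        linarith
      · rw [← Finset.sum_Ico_consecutive _ hi g1.le]
        have h10 := ih i i' g1.le (by omega) g2
        rw [hhalf i hi hib'] at h10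
        have h11 : Real.exp (-1) * (Real.exp (-1) * W.pr k (c a) / 2) ≤
            Real.exp (-1) * (W.pr k (c i) / 2) := by
          have := hcmp i hi hib'
          gcongr
        push_cast
        linarith
  obtain ⟨i, hi, hib, -, hs⟩ := key 6 le_rfl
  have hsum2 : ∑ j ∈ Finset.Ico a i, ρ (c j) (c (j + 1)) ≤
      ∑ i ∈ Finset.Ico a b', ρ (c i) (c (i + 1)) :=
    Finset.sum_le_sum_of_subset_of_nonneg (Finset.Ico_subset_Ico le_rfl hib)
      fun i _ _ => h0 _ _
  refine le_trans ?_ (hs.trans hsum2)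
  have he : (1 : ℝ) ≤ 3 * Real.exp (-1) := by
    rw [Real.exp_neg]
    have h12 := Real.exp_one_lt_d9
    have h13 := Real.exp_pos 1
    rw [← div_eq_mul_inv, le_div_iff₀ h13]
    linarith
  have hp := W.pr_pos hδ k (c a)
  have hep := Real.exp_pos (-1 : ℝ)
  have : ((6 : ℕ) : ℝ) * (Real.exp (-1) * (Real.exp (-1) * W.pr k (c a) / 2)) =
      (3 * Real.exp (-1)) * (Real.exp (-1) * W.pr k (c a)) := by
    push_cast
    ring
  rw [this]
  have h14 : 0 < Real.exp (-1) * W.pr k (c a) := by positivity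
  nlinarith

theorem chain_lower {X : Type} [MetricSpace X] {N : ℕ} (hN : 13 ≤ N) {δ : ℝ} (hδ : 0 < δ)
    (W : Wt X N δ) (ρ : X → X → ℝ) (h0 : ∀ a b, 0 ≤ ρ a b)
    (h1 : ∀ a b k, 1 / (N : ℝ) ^ (k + 1) < dist a b → W.pr k a ≤ ρ a b)
    (c : ℕ → X) (a b k : ℕ) (hab : a ≤ b) (hd : 1 / (N : ℝ) ^ k ≤ dist (c a) (c b)) :
    Real.exp (-1) * W.pr k (c a) ≤ ∑ i ∈ Finset.Ico a b, ρ (c i) (c (i + 1)) := by
  have hN' : (13 : ℝ) ≤ N := by exact_mod_cast hN
  have hNp : (0 : ℝ) < N := by linarith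
  have hi1 : (1 : ℝ) / N < 1 := by rw [div_lt_one hNp]; linarith
  have hi0 : (0 : ℝ) ≤ 1 / N := by positivity
  have hpt : ∀ i, ∃ K : ℕ, ∀ m, K ≤ m → c i ≠ c (i + 1) →
      1 / (N : ℝ) ^ (m + 1) < dist (c i) (c (i + 1)) := by
    intro i
    by_cases hci : c i = c (i + 1)
    · exact ⟨0, fun m _ h => absurd hci h⟩
    · obtain ⟨K, hK⟩ := exists_pow_lt_of_lt_one (dist_pos.mpr hci) hi1
      refine ⟨K, fun m hm _ => lt_of_le_of_lt ?_ hK⟩
      rw [← one_div_pow]
      exact pow_le_pow_of_le_one hi0 hi1.le (by omega)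
  choose Kf hKf using hpt
  obtain ⟨K, hK⟩ : ∃ K, ∀ i, i < b → Kf i ≤ K :=
    ⟨(Finset.range b).sup Kf, fun i hi => Finset.le_sup (Finset.mem_range.mpr hi)⟩
  have main : ∀ m k, K ≤ k + m → ∀ a b', a ≤ b' → b' ≤ b →
      1 / (N : ℝ) ^ k ≤ dist (c a) (c b') →
      Real.exp (-1) * W.pr k (c a) ≤ ∑ i ∈ Finset.Ico a b', ρ (c i) (c (i + 1)) := by
    intro m
    induction m with
    | zero =>
      intro k hk a b' hab' hb' hd'
      exact chain_base hN hδ W ρ h0 h1 c a b' k hab' hd' fun i hi hne =>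
        hKf i k ((hK i (by omega)).trans (by omega)) hne
    | succ m ihm =>
      intro k hk a b' hab' hb' hd'
      exact chain_step hN hδ W ρ h0 h1 c k b (ihm (k + 1) (by omega)) a b' hab' hb' hd'
  exact main K k (by omega) a b hab le_rfl hd

end MP09fff0
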