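import Pool.Agent.Lib.MP_09fff0_gt.Defs

/-! # MP_09fff0_gt: conformal dimension zero, transfer through a bi-Lipschitz map

Proof: `boxDim Y ≥ 0` always (`covN` is a natural number, its real logarithm is `≥ 0`, `log (1/r) > 0` for `r < 1`).
If `QS f` with `η` then `QS (g.trans f)` with `t ↦ η ((C / c) t)`:
`dist x a ≤ t dist x b` gives `dist (g x) (g a) ≤ C t dist x b ≤ (C / c) t dist (g x) (g b)`. (If `X'` has at most one
point take `C = c`; otherwise `c ≤ C`, in any case one may replace `C` by `max C c > 0`.) -/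

open MeasureTheory Set Filter Topology
open scoped ENNReal NNReal unitInterval

namespace MP09fff0

theorem boxDim_nonneg (Y : Type) [MetricSpace Y] : 0 ≤ boxDim Y := by
  have h1 : (0 : EReal) ≤
      liminf (fun r : ℝ => ((Real.log (covN Y r) / Real.log (1 / r) : ℝ) : EReal)) (𝓝[>] 0) := by
    refine le_liminf_of_le (by isBoundedDefault) ?_
    have h2 : ∀ᶠ r : ℝ in 𝓝[>] 0, r < 1 := by
      filter_upwards [Ioo_mem_nhdsGT (show (0 : ℝ) < 1 by norm_num)] with r hr using hr.2
    filter_upwards [h2, self_mem_nhdsWithin] with r hr hr0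
    have hr0' : (0 : ℝ) < r := hr0
    have h3 : 0 ≤ Real.log (covN Y r) := Real.log_natCast_nonneg _
    have h4 : 0 ≤ Real.log (1 / r) := by
      apply Real.log_nonneg
      rw [le_div_iff₀ hr0']
      linarith
    exact_mod_cast div_nonneg h3 h4
  exact h1.trans (liminf_le_limsup (by isBoundedDefault) (by isBoundedDefault))

theorem QS.comp_bilip {X' X Y : Type} [MetricSpace X'] [MetricSpace X] [MetricSpace Y]
    (g : X' ≃ₜ X) (c C : ℝ) (hc : 0 < c)
    (hg : ∀ x y, c * dist x y ≤ dist (g x) (g y) ∧ dist (g x) (g y) ≤ C * dist x y)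
    (f : X ≃ₜ Y) (hf : QS f) : QS (g.trans f) := by
  obtain ⟨η, hη⟩ := hf
  have hm : 0 < max C c := lt_of_lt_of_le hc (le_max_right _ _)
  let K : ℝ≥0 := ⟨max C c / c, (div_pos hm hc).le⟩
  have hK : K ≠ 0 := by
    intro h
    have h1 : (K : ℝ) = 0 := by rw [h]; rfl
    exact (div_pos hm hc).ne' h1
  refine ⟨(Homeomorph.mulLeft₀ K hK).trans η, fun x a b t h => ?_⟩
  have h1 : dist (g x) (g a) ≤ ((K * t : ℝ≥0) : ℝ) * dist (g x) (g b) := by
    have h2 := (hg x a).2
    have h3 := (hg x b).1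
    have h4 : C * dist x a ≤ max C c * dist x a :=
      mul_le_mul_of_nonneg_right (le_max_left _ _) dist_nonneg
    have h5 : max C c * dist x a ≤ max C c * (t * dist x b) :=
      mul_le_mul_of_nonneg_left h hm.le
    have h6 : dist x b ≤ dist (g x) (g b) / c := by
      rw [le_div_iff₀ hc]
      linarith
    have h7 : max C c * (t * dist x b) ≤ max C c * (t * (dist (g x) (g b) / c)) := by
      have ht : (0 : ℝ) ≤ t := t.2
      gcongr
    have h8 : max C c * (t * (dist (g x) (g b) / c)) =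
        ((K * t : ℝ≥0) : ℝ) * dist (g x) (g b) := by
      show _ = (max C c / c) * (t : ℝ) * dist (g x) (g b)
      ring
    linarith
  exact hη (g x) (g a) (g b) (K * t) h1

theorem conf_zero {X' X : Type} [MetricSpace X'] [MetricSpace X] (g : X' ≃ₜ X) (c C : ℝ) (hc : 0 < c)
    (hg : ∀ x y, c * dist x y ≤ dist (g x) (g y) ∧ dist (g x) (g y) ≤ C * dist x y)
    (h : ∀ ε : ℝ, 0 < ε → ∃ (Y : Type) (_ : MetricSpace Y) (f : X ≃ₜ Y), QS f ∧
      boxDim Y ≤ (ε : EReal) ∧ dimH (univ : Set Y) ≤ ENNReal.ofReal ε) :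
    confDimH X' = 0 ∧ confBoxDim X' = 0 := by
  constructor
  · refine le_antisymm ?_ zero_le
    refine ENNReal.le_of_forall_pos_le_add fun ε hε _ => ?_
    obtain ⟨Y, mY, f, hf, -, h2⟩ := h ε hε
    have hq : QSEquiv X' Y := ⟨g.trans f, QS.comp_bilip g c C hc hg f hf⟩
    refine (iInf_le_of_le Y (iInf_le_of_le mY (iInf_le_of_le hq h2))).trans ?_
    rw [zero_add, ENNReal.ofReal_coe_nnreal]
  · refine le_antisymm ?_ ?_
    · refine EReal.le_of_forall_lt_iff_le.1 fun z hz => ?_
      have hz' : 0 < z := by exact_mod_cast hz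
      obtain ⟨Y, mY, f, hf, h1, -⟩ := h z hz'
      have hq : QSEquiv X' Y := ⟨g.trans f, QS.comp_bilip g c C hc hg f hf⟩
      exact iInf_le_of_le Y (iInf_le_of_le mY (iInf_le_of_le hq h1))
    · exact le_iInf fun Y => le_iInf fun mY => le_iInf fun _ => boxDim_nonneg Y

end MP09fff0
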