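import Pool.Agent.Lib.MP_09fff0_gt.Det.Basic

/-! # MP_09fff0_gt: covering numbers of the deformed space

Proof: let `0 < r < 1` and put `s = r / e`. Centres: `T = {f y : k, y ∈ c k, e⁻¹ δ s < pr k y}`. This is finite as
`pr k y ≤ 2 ^ (-k)` bounds `k`; and the number of pairs `(k, y)` is at most
`∑ (pr k y / (e⁻¹ δ s)) ^ ε ≤ (e / (δ s)) ^ ε * S = C * r ^ (-ε)`. It covers: for `x : X` let `k` be
least with `pr k x ≤ s` (`k ≥ 1` as `pr 0 x = 1 > s`); then `pr k x ≥ δ * pr (k-1) x > δ s`; choose `y ∈ c k` with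
`dist x y ≤ 1 / N ^ k`; `pr k y ≥ e⁻¹ pr k x > e⁻¹ δ s` (`pr_lip`), and `dist (f x) (f y) ≤ e * pr k x ≤ e s = r`. -/

open MeasureTheory Set Filter Topology
open scoped ENNReal NNReal unitInterval

namespace MP09fff0

theorem cover_of_sum {X Y : Type} [MetricSpace X] [MetricSpace Y] (f : X ≃ₜ Y) {N : ℕ} (hN : 13 ≤ N)
    {δ : ℝ} (hδ : 0 < δ) (W : Wt X N δ)
    (hU : ∀ x y k, dist x y ≤ 1 / (N : ℝ) ^ k → dist (f x) (f y) ≤ Real.exp 1 * W.pr k x)
    (c : ℕ → Finset X) (hc : ∀ k x, ∃ y ∈ c k, dist x y ≤ 1 / (N : ℝ) ^ k)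
    (ε : ℝ) (hε : 0 < ε) (S : ℝ)
    (hS : ∀ K, ∑ k ∈ Finset.range K, ∑ y ∈ c k, (W.pr k y) ^ ε ≤ S) :
    ∃ C : ℝ, ∀ r : ℝ, 0 < r → r < 1 →
      ∃ t : Finset Y, (∀ y, ∃ z ∈ t, dist y z ≤ r) ∧ (t.card : ℝ) ≤ C * r ^ (-ε) := by
  classical
  have he : (0 : ℝ) < Real.exp 1 := Real.exp_pos 1
  have he1 : (1 : ℝ) < Real.exp 1 := Real.one_lt_exp_iff.2 one_pos
  have hN2 : 2 ≤ N := by omega
  refine ⟨(δ / (Real.exp 1 * Real.exp 1)) ^ (-ε) * S, fun r hr0 hr1 => ?_⟩
  set s : ℝ := r / Real.exp 1 with hs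
  have hs0 : 0 < s := div_pos hr0 he
  have hs1 : s < 1 := by
    rw [hs, div_lt_one he]
    linarith
  set θ : ℝ := δ * s / Real.exp 1 with hθ
  have hθ0 : 0 < θ := div_pos (mul_pos hδ hs0) he
  have hθr : θ = δ / (Real.exp 1 * Real.exp 1) * r := by
    rw [hθ, hs]
    field_simp
  obtain ⟨K, hK⟩ := exists_pow_lt_of_lt_one hθ0 (by norm_num : (1 / 2 : ℝ) < 1)
  refine ⟨(Finset.range K).biUnion fun k => ((c k).filter fun y => θ < W.pr k y).image f, ?_, ?_⟩
  · intro y
    obtain ⟨x, rfl⟩ := f.surjective y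
    have hex : ∃ k, W.pr k x ≤ s := by
      obtain ⟨k, hk⟩ := exists_pow_lt_of_lt_one hs0 (by norm_num : (1 / 2 : ℝ) < 1)
      exact ⟨k, (W.pr_le_pow hδ k x).trans hk.le⟩
    have h1 := Nat.find_spec hex
    have h2 : ∀ k < Nat.find hex, s < W.pr k x := fun k hk => not_le.1 (Nat.find_min hex hk)
    set k := Nat.find hex with hk
    have hk0 : k ≠ 0 := by
      intro h3
      rw [h3, W.pr_zero] at h1
      linarith
    obtain ⟨k', hk'⟩ := Nat.exists_eq_succ_of_ne_zero hk0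
    have h3 : s < W.pr k' x := h2 k' (by omega)
    have h4 : δ * s < W.pr k x := by
      have h5 := W.le_pr_add hδ k' 1 x
      rw [pow_one] at h5
      rw [hk']
      calc δ * s < δ * W.pr k' x := mul_lt_mul_of_pos_left h3 hδ
        _ ≤ W.pr (k' + 1) x := h5
    obtain ⟨y, hy, hxy⟩ := hc k x
    have h5 : W.pr k x ≤ Real.exp 1 * W.pr k y := W.pr_lip hδ hN2 k y x (by rwa [dist_comm])
    have h6 : θ < W.pr k y := by
      rw [hθ, div_lt_iff₀ he, mul_comm (W.pr k y)]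
      linarith
    have h7 : k < K := by
      by_contra h8
      have h9 : W.pr k y ≤ (1 / 2) ^ K :=
        (W.pr_le_pow hδ k y).trans (pow_le_pow_of_le_one (by norm_num) (by norm_num) (not_lt.1 h8))
      linarith
    refine ⟨f y, ?_, ?_⟩
    · rw [Finset.mem_biUnion]
      exact ⟨k, Finset.mem_range.2 h7, Finset.mem_image.2
        ⟨y, Finset.mem_filter.2 ⟨hy, h6⟩, rfl⟩⟩
    · calc dist (f x) (f y) ≤ Real.exp 1 * W.pr k x := hU x y k hxy
        _ ≤ Real.exp 1 * s := mul_le_mul_of_nonneg_left h1 he.le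
        _ = r := by rw [hs, mul_div_cancel₀ _ he.ne']
  · have h1 : (((Finset.range K).biUnion fun k =>
        ((c k).filter fun y => θ < W.pr k y).image f).card : ℝ) ≤
        ∑ k ∈ Finset.range K, (((c k).filter fun y => θ < W.pr k y).card : ℝ) := by
      have h2 : ((Finset.range K).biUnion fun k =>
          ((c k).filter fun y => θ < W.pr k y).image f).card ≤
          ∑ k ∈ Finset.range K, ((c k).filter fun y => θ < W.pr k y).card :=
        Finset.card_biUnion_le.trans (Finset.sum_le_sum fun k _ => Finset.card_image_le)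
      exact_mod_cast h2
    refine h1.trans ?_
    have h2 : ∀ k ∈ Finset.range K, (((c k).filter fun y => θ < W.pr k y).card : ℝ) ≤
        θ ^ (-ε) * ∑ y ∈ c k, (W.pr k y) ^ ε := by
      intro k _
      calc (((c k).filter fun y => θ < W.pr k y).card : ℝ) =
            ∑ y ∈ (c k).filter (fun y => θ < W.pr k y), (1 : ℝ) := by simp
        _ ≤ ∑ y ∈ (c k).filter (fun y => θ < W.pr k y), θ ^ (-ε) * (W.pr k y) ^ ε := by
            refine Finset.sum_le_sum fun y hy => ?_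
            have h3 : θ ≤ W.pr k y := (Finset.mem_filter.1 hy).2.le
            have h4 : θ ^ ε ≤ (W.pr k y) ^ ε := Real.rpow_le_rpow hθ0.le h3 hε.le
            have h5 : θ ^ (-ε) * θ ^ ε = 1 := by
              rw [← Real.rpow_add hθ0, neg_add_cancel, Real.rpow_zero]
            rw [← h5]
            exact mul_le_mul_of_nonneg_left h4 (Real.rpow_nonneg hθ0.le _)
        _ ≤ ∑ y ∈ c k, θ ^ (-ε) * (W.pr k y) ^ ε := by
            refine Finset.sum_le_sum_of_subset_of_nonneg (Finset.filter_subset _ _) fun y _ _ => ?_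
            exact mul_nonneg (Real.rpow_nonneg hθ0.le _)
              (Real.rpow_nonneg (W.pr_pos hδ k y).le _)
        _ = _ := by rw [Finset.mul_sum]
    refine (Finset.sum_le_sum h2).trans ?_
    rw [← Finset.mul_sum, hθr, Real.mul_rpow (div_pos hδ (mul_pos he he)).le hr0.le]
    calc (δ / (Real.exp 1 * Real.exp 1)) ^ (-ε) * r ^ (-ε) *
          ∑ k ∈ Finset.range K, ∑ y ∈ c k, (W.pr k y) ^ ε
        ≤ (δ / (Real.exp 1 * Real.exp 1)) ^ (-ε) * r ^ (-ε) * S := by
          refine mul_le_mul_of_nonneg_left (hS K) ?_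
          exact mul_nonneg (Real.rpow_nonneg (div_pos hδ (mul_pos he he)).le _)
            (Real.rpow_nonneg hr0.le _)
      _ = _ := by ring

end MP09fff0
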