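import Pool.Agent.Lib.MP_09fff0_gt.Defs

/-! # MP_09fff0_gt: dimensions from covering numbers

Proof: `covN Y r ≤ t.card` (`Nat.sInf_le`), so `log (covN Y r) / log (1/r) ≤ (log C' + ε log (1/r)) / log (1/r)`
with `C' = max C 1`, which tends to `ε` (if `covN Y r = 0` the left side is `0`).
Hausdorff: for `s > ε`, cover by the closed balls of radius `r_n → 0`; `∑ diam ^ s ≤ C r ^ (-ε) (2 r) ^ s → 0`, so
`μH[s] univ = 0` (`hausdorffMeasure_le_liminf_sum`) and `dimH univ ≤ s` (`dimH_le_of_hausdorffMeasure_ne_top`). -/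

open MeasureTheory Set Filter Topology
open scoped ENNReal NNReal unitInterval

namespace MP09fff0

theorem boxDim_le_of_cover {Y : Type} [MetricSpace Y] (ε : ℝ) (hε : 0 < ε) (C : ℝ)
    (h : ∀ r : ℝ, 0 < r → r < 1 →
      ∃ t : Finset Y, (∀ y, ∃ z ∈ t, dist y z ≤ r) ∧ (t.card : ℝ) ≤ C * r ^ (-ε)) :
    boxDim Y ≤ (ε : EReal) := by
  set K : ℝ := max C 1 with hK
  have hK1 : 1 ≤ K := le_max_right _ _
  have hlog : Tendsto (fun r : ℝ => Real.log (1 / r)) (𝓝[>] 0) atTop := by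
    have h1 : Tendsto (fun r : ℝ => 1 / r) (𝓝[>] 0) atTop := by
      simpa only [one_div] using tendsto_inv_nhdsGT_zero (𝕜 := ℝ)
    exact Real.tendsto_log_atTop.comp h1
  have hg : Tendsto (fun r : ℝ => ((Real.log K / Real.log (1 / r) + ε : ℝ) : EReal))
      (𝓝[>] 0) (𝓝 (ε : EReal)) := by
    have h1 : Tendsto (fun r : ℝ => Real.log K / Real.log (1 / r) + ε) (𝓝[>] 0) (𝓝 (0 + ε)) :=
      (Tendsto.const_div_atTop hlog _).add_const _
    rw [zero_add] at h1
    exact (continuous_coe_real_ereal.tendsto ε).comp h1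
  have hle : (fun r : ℝ => ((Real.log (covN Y r) / Real.log (1 / r) : ℝ) : EReal)) ≤ᶠ[𝓝[>] 0]
      (fun r : ℝ => ((Real.log K / Real.log (1 / r) + ε : ℝ) : EReal)) := by
    have hmem : Ioo (0 : ℝ) 1 ∈ 𝓝[>] (0 : ℝ) := Ioo_mem_nhdsGT (by norm_num)
    filter_upwards [hmem] with r hr
    obtain ⟨hr0, hr1⟩ := hr
    obtain ⟨t, ht, htc⟩ := h r hr0 hr1
    have hL : 0 < Real.log (1 / r) := Real.log_pos (by rw [lt_div_iff₀ hr0]; linarith)
    have hcov : covN Y r ≤ t.card := Nat.sInf_le ⟨t, rfl, ht⟩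
    have hcov' : (covN Y r : ℝ) ≤ K * r ^ (-ε) := by
      have h1 : (covN Y r : ℝ) ≤ t.card := by exact_mod_cast hcov
      have h2 : 0 < r ^ (-ε) := Real.rpow_pos_of_pos hr0 _
      have h3 : C * r ^ (-ε) ≤ K * r ^ (-ε) := by
        have := le_max_left C 1
        gcongr
      linarith
    have hlogr : Real.log (r ^ (-ε)) = ε * Real.log (1 / r) := by
      rw [Real.log_rpow hr0, one_div, Real.log_inv]
      ring
    have hlogK : 0 ≤ Real.log K := Real.log_nonneg hK1
    have hmain : Real.log (covN Y r) ≤ Real.log K + ε * Real.log (1 / r) := by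
      rcases Nat.eq_zero_or_pos (covN Y r) with h0 | h0
      · rw [h0]
        simp only [Nat.cast_zero, Real.log_zero]
        positivity
      · have h1 : (0 : ℝ) < covN Y r := by exact_mod_cast h0
        have h2 := Real.log_le_log h1 hcov'
        rw [Real.log_mul (by positivity) (Real.rpow_pos_of_pos hr0 _).ne', hlogr] at h2
        exact h2
    have h5 : Real.log (covN Y r) / Real.log (1 / r) ≤ Real.log K / Real.log (1 / r) + ε := by
      rw [div_le_iff₀ hL, add_mul, div_mul_cancel₀ _ hL.ne']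
      exact hmain
    exact_mod_cast h5
  unfold boxDim
  rw [← hg.limsup_eq]
  exact limsup_le_limsup hle

theorem dimH_le_of_cover {Y : Type} [MetricSpace Y] (ε : ℝ) (hε : 0 < ε) (C : ℝ)
    (h : ∀ r : ℝ, 0 < r → r < 1 →
      ∃ t : Finset Y, (∀ y, ∃ z ∈ t, dist y z ≤ r) ∧ (t.card : ℝ) ≤ C * r ^ (-ε)) :
    dimH (univ : Set Y) ≤ ENNReal.ofReal ε := by
  borelize Y
  refine ENNReal.le_of_forall_pos_le_add fun δ hδ _ => ?_
  set s : ℝ≥0 := ε.toNNReal + δ with hs
  have hs' : (s : ℝ) = ε + δ := by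
    rw [hs]
    push_cast
    rw [Real.coe_toNNReal _ hε.le]
  have hδ' : (0 : ℝ) < δ := by exact_mod_cast hδ
  have hgoal : dimH (univ : Set Y) ≤ (s : ℝ≥0∞) := by
    refine dimH_le_of_hausdorffMeasure_ne_top ?_
    set K : ℝ := max C 1 with hK
    have hK1 : 1 ≤ K := le_max_right _ _
    set ρ : ℕ → ℝ := fun n => 1 / ((n : ℝ) + 2) with hρ
    have hρ0 : ∀ n, 0 < ρ n := fun n => by simp only [hρ]; positivity
    have hρ1 : ∀ n, ρ n < 1 := fun n => by
      simp only [hρ]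
      rw [div_lt_one (by positivity)]
      have : (0 : ℝ) ≤ n := Nat.cast_nonneg n
      linarith
    choose t ht htc using fun n => h (ρ n) (hρ0 n) (hρ1 n)
    have hlim : Tendsto ρ atTop (𝓝 0) := by
      have h1 : Tendsto (fun n : ℕ => (n : ℝ) + 2) atTop atTop :=
        tendsto_atTop_add_const_right _ _ tendsto_natCast_atTop_atTop
      exact Tendsto.const_div_atTop h1 1
    have hlim2 : Tendsto (fun n => ENNReal.ofReal (2 * ρ n)) atTop (𝓝 0) := by
      have h1 : Tendsto (fun n => 2 * ρ n) atTop (𝓝 (2 * 0)) := hlim.const_mul 2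
      have h2 := (ENNReal.continuous_ofReal.tendsto (2 * 0 : ℝ)).comp h1
      rw [mul_zero, ENNReal.ofReal_zero] at h2
      exact h2
    have hdiam : ∀ n, ∀ i : {z // z ∈ t n},
        Metric.ediam (Metric.closedBall (i : Y) (ρ n)) ≤ ENNReal.ofReal (2 * ρ n) := by
      intro n i
      rw [← Metric.closedEBall_ofReal (hρ0 n).le]
      refine Metric.ediam_closedEBall_le.trans (le_of_eq ?_)
      rw [ENNReal.ofReal_mul (by norm_num)]
      simp
    have hbd : μH[(s : ℝ)] (univ : Set Y) ≤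
        liminf (fun n => ∑ i : {z // z ∈ t n},
          Metric.ediam (Metric.closedBall (i : Y) (ρ n)) ^ (s : ℝ)) atTop := by
      refine Measure.hausdorffMeasure_le_liminf_sum (s : ℝ) univ
        (fun n => ENNReal.ofReal (2 * ρ n)) hlim2
        (fun n (i : {z // z ∈ t n}) => Metric.closedBall (i : Y) (ρ n))
        (Eventually.of_forall fun n i => hdiam n i) (Eventually.of_forall fun n y _ => ?_)
      obtain ⟨z, hz, hyz⟩ := ht n y
      exact mem_iUnion.2 ⟨⟨z, hz⟩, Metric.mem_closedBall.2 hyz⟩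
    have hsum : ∀ n, ∑ i : {z // z ∈ t n},
        Metric.ediam (Metric.closedBall (i : Y) (ρ n)) ^ (s : ℝ) ≤
          ENNReal.ofReal (K * 2 ^ (s : ℝ)) := by
      intro n
      have h1 : ∑ i : {z // z ∈ t n},
          Metric.ediam (Metric.closedBall (i : Y) (ρ n)) ^ (s : ℝ) ≤
          ∑ _i : {z // z ∈ t n}, ENNReal.ofReal (2 * ρ n) ^ (s : ℝ) :=
        Finset.sum_le_sum fun i _ => ENNReal.rpow_le_rpow (hdiam n i) s.coe_nonneg
      refine h1.trans ?_
      rw [Finset.sum_const, Finset.card_univ, Fintype.card_coe, nsmul_eq_mul,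
        ENNReal.ofReal_rpow_of_nonneg (mul_nonneg zero_le_two (hρ0 n).le) s.coe_nonneg,
        ← ENNReal.ofReal_natCast, ← ENNReal.ofReal_mul (Nat.cast_nonneg _)]
      apply ENNReal.ofReal_le_ofReal
      have h2 : (0 : ℝ) < ρ n ^ (-ε) := Real.rpow_pos_of_pos (hρ0 n) _
      have h3 : ((t n).card : ℝ) ≤ K * ρ n ^ (-ε) := by
        have h4 : C * ρ n ^ (-ε) ≤ K * ρ n ^ (-ε) := by
          have := le_max_left C 1
          gcongr
        exact (htc n).trans h4
      have h5 : (2 * ρ n) ^ (s : ℝ) = 2 ^ (s : ℝ) * ρ n ^ (s : ℝ) :=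
        Real.mul_rpow (by norm_num) (hρ0 n).le
      have h6 : ρ n ^ (-ε) * ρ n ^ (s : ℝ) ≤ 1 := by
        rw [← Real.rpow_add (hρ0 n)]
        refine Real.rpow_le_one (hρ0 n).le (hρ1 n).le ?_
        rw [hs']
        linarith
      have h7 : (0 : ℝ) < 2 ^ (s : ℝ) := Real.rpow_pos_of_pos (by norm_num) _
      have h8 : (0 : ℝ) < ρ n ^ (s : ℝ) := Real.rpow_pos_of_pos (hρ0 n) _
      rw [h5]
      calc ((t n).card : ℝ) * (2 ^ (s : ℝ) * ρ n ^ (s : ℝ))
          ≤ (K * ρ n ^ (-ε)) * (2 ^ (s : ℝ) * ρ n ^ (s : ℝ)) := by gcongr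
        _ = K * 2 ^ (s : ℝ) * (ρ n ^ (-ε) * ρ n ^ (s : ℝ)) := by ring
        _ ≤ K * 2 ^ (s : ℝ) * 1 := by gcongr
        _ = _ := by ring
    have hfin : μH[(s : ℝ)] (univ : Set Y) ≤ ENNReal.ofReal (K * 2 ^ (s : ℝ)) := by
      refine hbd.trans ?_
      have h1 : liminf (fun n => ∑ i : {z // z ∈ t n},
          Metric.ediam (Metric.closedBall (i : Y) (ρ n)) ^ (s : ℝ)) atTop ≤
          liminf (fun _ : ℕ => ENNReal.ofReal (K * 2 ^ (s : ℝ))) atTop :=
        liminf_le_liminf (Eventually.of_forall hsum)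
      rwa [liminf_const] at h1
    exact ne_top_of_le_ne_top ENNReal.ofReal_ne_top hfin
  refine hgoal.trans (le_of_eq ?_)
  rw [hs]
  push_cast
  rfl

end MP09fff0
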