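import Pool.Agent.Lib.MP_09fff0_gt.Det.Chain

/-! # MP_09fff0_gt: the chain metric

Proof: put `ρ x y = ⨅ {max (pr k x) (pr k y) : k, dist x y ≤ 1 / N ^ k}` (a real infimum over a
nonempty set, `k = 0` is admissible, bounded below by `0`). Then `ρ x x = 0` (`pr k x ≤ 2 ^ (-k)`), `ρ` is
symmetric and nonnegative; if `1 / N ^ (k+1) < dist a b` then every admissible index is `≤ k`, so
`pr k a ≤ ρ a b` (`pr_anti`). `D x y` = infimum over all chains of the sum of `ρ` (for instance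
`PseudoMetricSpace.ofPreNNDist`, or directly with sequences). `D x y ≤ ρ x y ≤ max (pr k x) (pr k y) ≤
exp 1 * pr k x` if `dist x y ≤ 1 / N ^ k` (`pr_lip`); the lower bound is `chain_lower`. -/

open MeasureTheory Set Filter Topology
open scoped ENNReal NNReal unitInterval

namespace MP09fff0

/-- The cost of one step. -/
private noncomputable def rho {X : Type} [MetricSpace X] {N : ℕ} {δ : ℝ} (W : Wt X N δ)
    (x y : X) : ℝ :=
  sInf {s : ℝ | ∃ k : ℕ, dist x y ≤ 1 / (N : ℝ) ^ k ∧ s = max (W.pr k x) (W.pr k y)}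

private theorem rho_nonneg {X : Type} [MetricSpace X] {N : ℕ} {δ : ℝ} (hδ : 0 < δ)
    (W : Wt X N δ) (x y : X) : 0 ≤ rho W x y := by
  refine Real.sInf_nonneg ?_
  rintro s ⟨k, -, rfl⟩
  exact (W.pr_pos hδ k x).le.trans (le_max_left _ _)

private theorem rho_le {X : Type} [MetricSpace X] {N : ℕ} {δ : ℝ} (hδ : 0 < δ)
    (W : Wt X N δ) (x y : X) (k : ℕ) (h : dist x y ≤ 1 / (N : ℝ) ^ k) :
    rho W x y ≤ max (W.pr k x) (W.pr k y) := by
  refine csInf_le ⟨0, ?_⟩ ⟨k, h, rfl⟩
  rintro s ⟨k, -, rfl⟩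
  exact (W.pr_pos hδ k x).le.trans (le_max_left _ _)

private theorem rho_symm {X : Type} [MetricSpace X] {N : ℕ} {δ : ℝ}
    (W : Wt X N δ) (x y : X) : rho W x y = rho W y x := by
  unfold rho
  simp only [dist_comm x y, max_comm (W.pr _ x)]

private theorem le_rho {X : Type} [MetricSpace X] (hX : ∀ x y : X, dist x y ≤ 1) {N : ℕ}
    (hN : 13 ≤ N) {δ : ℝ} (hδ : 0 < δ) (W : Wt X N δ) (a b : X) (k : ℕ)
    (h : 1 / (N : ℝ) ^ (k + 1) < dist a b) : W.pr k a ≤ rho W a b := by
  refine le_csInf ⟨_, 0, by simpa using hX a b, rfl⟩ ?_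
  rintro s ⟨j, hj, rfl⟩
  have hN1 : (1 : ℝ) ≤ N := by exact_mod_cast (by omega : 1 ≤ N)
  have hjk : j ≤ k := by
    by_contra hlt
    have h1 : (N : ℝ) ^ (k + 1) ≤ (N : ℝ) ^ j := pow_le_pow_right₀ hN1 (by omega)
    have h2 : (0 : ℝ) < (N : ℝ) ^ (k + 1) := by positivity
    have h3 : 1 / (N : ℝ) ^ j ≤ 1 / (N : ℝ) ^ (k + 1) := one_div_le_one_div_of_le h2 h1
    linarith
  exact (W.pr_anti hδ a hjk).trans (le_max_left _ _)

/-- The costs of the chains from `x` to `y`. -/
private def costs {X : Type} (ρ : X → X → ℝ) (x y : X) : Set ℝ :=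
  {s : ℝ | ∃ (n : ℕ) (c : ℕ → X), c 0 = x ∧ c n = y ∧
    s = ∑ i ∈ Finset.range n, ρ (c i) (c (i + 1))}

private theorem costs_nonneg {X : Type} {ρ : X → X → ℝ} (h0 : ∀ a b, 0 ≤ ρ a b) {x y : X} {s : ℝ}
    (hs : s ∈ costs ρ x y) : 0 ≤ s := by
  obtain ⟨n, c, -, -, rfl⟩ := hs
  exact Finset.sum_nonneg fun i _ => h0 _ _

private theorem costs_one {X : Type} (ρ : X → X → ℝ) (x y : X) : ρ x y ∈ costs ρ x y := by
  refine ⟨1, fun i => if i = 0 then x else y, by simp, by simp, by simp⟩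

private theorem costs_refl {X : Type} (ρ : X → X → ℝ) (x : X) : (0 : ℝ) ∈ costs ρ x x :=
  ⟨0, fun _ => x, rfl, rfl, by simp⟩

private theorem costs_symm {X : Type} {ρ : X → X → ℝ} (hs : ∀ a b, ρ a b = ρ b a) {x y : X} {s : ℝ}
    (h : s ∈ costs ρ x y) : s ∈ costs ρ y x := by
  obtain ⟨n, c, h1, h2, rfl⟩ := h
  refine ⟨n, fun i => c (n - i), by simpa using h2, by simpa using h1, ?_⟩
  rw [← Finset.sum_range_reflect]
  refine Finset.sum_congr rfl fun i hi => ?_
  rw [Finset.mem_range] at hi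
  have e1 : n - 1 - i + 1 = n - i := by omega
  have e2 : n - 1 - i = n - (i + 1) := by omega
  rw [e1, e2]
  exact hs _ _

private theorem costs_add {X : Type} {ρ : X → X → ℝ} {x y z : X} {s t : ℝ}
    (h : s ∈ costs ρ x y) (h' : t ∈ costs ρ y z) : s + t ∈ costs ρ x z := by
  obtain ⟨n, c, h1, h2, rfl⟩ := h
  obtain ⟨m, d, h3, h4, rfl⟩ := h'
  have hc : ∀ i, i ≤ n → (if i ≤ n then c i else d (i - n)) = c i := fun i hi => if_pos hi
  have hd : ∀ j, (if n + j ≤ n then c (n + j) else d (n + j - n)) = d j := by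
    intro j
    rcases Nat.eq_zero_or_pos j with rfl | hj
    · rw [if_pos (by omega), Nat.add_zero, h2, h3]
    · rw [if_neg (by omega), Nat.add_sub_cancel_left]
  refine ⟨n + m, fun i => if i ≤ n then c i else d (i - n), ?_, ?_, ?_⟩
  · simpa using h1
  · show (if n + m ≤ n then c (n + m) else d (n + m - n)) = z
    rw [hd m, h4]
  · rw [Finset.sum_range_add]
    congr 1
    · refine Finset.sum_congr rfl fun i hi => ?_
      rw [Finset.mem_range] at hi
      show ρ (c i) (c (i + 1)) = ρ (if i ≤ n then c i else d (i - n))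
        (if i + 1 ≤ n then c (i + 1) else d (i + 1 - n))
      rw [hc i hi.le, hc (i + 1) hi]
    · refine Finset.sum_congr rfl fun j _ => ?_
      show ρ (d j) (d (j + 1)) = ρ (if n + j ≤ n then c (n + j) else d (n + j - n))
        (if n + j + 1 ≤ n then c (n + j + 1) else d (n + j + 1 - n))
      rw [hd j, show n + j + 1 = n + (j + 1) from by ring, hd (j + 1)]

theorem exists_D {X : Type} [MetricSpace X] (hX : ∀ x y : X, dist x y ≤ 1) {N : ℕ} (hN : 13 ≤ N)
    {δ : ℝ} (hδ : 0 < δ) (W : Wt X N δ) :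
    ∃ D : X → X → ℝ, (∀ x, D x x = 0) ∧ (∀ x y, D x y = D y x) ∧
      (∀ x y z, D x z ≤ D x y + D y z) ∧
      (∀ x y k, dist x y ≤ 1 / (N : ℝ) ^ k → D x y ≤ Real.exp 1 * W.pr k x) ∧
      (∀ x y k, 1 / (N : ℝ) ^ k ≤ dist x y → Real.exp (-1) * W.pr k x ≤ D x y) := by
  have h0 := rho_nonneg hδ W
  have hbdd : ∀ x y, BddBelow (costs (rho W) x y) := fun x y =>
    ⟨0, fun s hs => costs_nonneg h0 hs⟩
  have hne : ∀ x y, (costs (rho W) x y).Nonempty := fun x y => ⟨_, costs_one _ x y⟩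
  refine ⟨fun x y => sInf (costs (rho W) x y), ?_, ?_, ?_, ?_, ?_⟩
  · intro x
    refine le_antisymm (csInf_le (hbdd x x) (costs_refl _ x)) ?_
    exact le_csInf (hne x x) fun s hs => costs_nonneg h0 hs
  · intro x y
    refine le_antisymm ?_ ?_
    · exact le_csInf (hne y x) fun s hs =>
        csInf_le (hbdd x y) (costs_symm (rho_symm W) hs)
    · exact le_csInf (hne x y) fun s hs =>
        csInf_le (hbdd y x) (costs_symm (rho_symm W) hs)
  · intro x y z
    show sInf (costs (rho W) x z) ≤ sInf (costs (rho W) x y) + sInf (costs (rho W) y z)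
    have h2 : ∀ t ∈ costs (rho W) y z,
        sInf (costs (rho W) x z) - sInf (costs (rho W) x y) ≤ t := by
      intro t ht
      have h1 : sInf (costs (rho W) x z) - t ≤ sInf (costs (rho W) x y) := by
        refine le_csInf (hne x y) fun s hs => ?_
        have := csInf_le (hbdd x z) (costs_add hs ht)
        linarith
      linarith
    have := le_csInf (hne y z) h2
    linarith
  · intro x y k hk
    have hN2 : 2 ≤ N := by omega
    have h1 : sInf (costs (rho W) x y) ≤ rho W x y := csInf_le (hbdd x y) (costs_one _ x y)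
    have h2 := rho_le hδ W x y k hk
    have h3 := W.pr_lip hδ hN2 k x y hk
    have h4 : W.pr k x ≤ Real.exp 1 * W.pr k x := by
      have h5 := W.pr_pos hδ k x
      have h6 : (1 : ℝ) ≤ Real.exp 1 := Real.one_le_exp zero_le_one
      nlinarith
    exact h1.trans (h2.trans (max_le h4 h3))
  · intro x y k hk
    refine le_csInf (hne x y) ?_
    rintro s ⟨n, c, h1, h2, rfl⟩
    have h3 := chain_lower hN hδ W (rho W) h0
      (fun a b j hj => le_rho hX hN hδ W a b j hj) c 0 n k (Nat.zero_le n)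
      (by rw [h1, h2]; exact hk)
    rw [h1] at h3
    rwa [← Finset.range_eq_Ico] at h3

end MP09fff0
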