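import Pool.Agent.Lib.MP_09fff0_gt.Defs

/-! # MP_09fff0_gt: existence of weights

Proof: `φ k x = exp (- min (log (1/δ)) (log 2 + N ^ (k+1) * infDist x (Bad X N k) / 2))` if `Bad X N k` is nonempty, and
`φ k x = δ` otherwise. `lip`: `infDist` is 1-Lipschitz and `min` is 1-Lipschitz. If all points of `Bad X N k` are
at distance `≥ 1 / N ^ k` of `x` then `infDist ≥ 1 / N ^ k` and
`log 2 + N ^ (k+1) * infDist / 2 ≥ log 2 + N / 2 ≥ log (1/δ)`, so `φ k x = δ`. -/

open MeasureTheory Set Filter Topology
open scoped ENNReal NNReal unitInterval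

namespace MP09fff0

theorem exists_Wt (X : Type) [MetricSpace X] (N : ℕ) (hN : 2 ≤ N) (δ : ℝ) (hδ : 0 < δ) (hδ2 : δ ≤ 1 / 2)
    (hNδ : 2 * Real.log (1 / δ) ≤ N) :
    ∃ W : Wt X N δ, ∀ k x, δ < W.φ k x → ∃ y ∈ Bad X N k, dist x y < 1 / (N : ℝ) ^ k := by
  classical
  have hN' : (2 : ℝ) ≤ N := by exact_mod_cast hN
  have hL2 : Real.log 2 ≤ Real.log (1 / δ) := by
    apply Real.log_le_log (by norm_num)
    rw [le_div_iff₀ hδ]
    linarith
  have hexpL : Real.exp (-Real.log (1 / δ)) = δ := by
    rw [one_div, Real.log_inv, neg_neg, Real.exp_log hδ]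
  have hexp2 : Real.exp (-Real.log 2) = 1 / 2 := by
    rw [Real.exp_neg, Real.exp_log (by norm_num), one_div]
  let a : ℕ → X → ℝ := fun k x => Real.log 2 + (N : ℝ) ^ (k + 1) * Metric.infDist x (Bad X N k) / 2
  have ha : ∀ k x, Real.log 2 ≤ a k x := by
    intro k x
    have h1 : 0 ≤ Metric.infDist x (Bad X N k) := Metric.infDist_nonneg
    have h2 : 0 ≤ (N : ℝ) ^ (k + 1) * Metric.infDist x (Bad X N k) / 2 := by positivity
    show Real.log 2 ≤ Real.log 2 + _
    linarith
  let W : Wt X N δ :=
    { φ := fun k x => if (Bad X N k).Nonempty then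
          Real.exp (-min (Real.log (1 / δ)) (a k x)) else δ
      lo := by
        intro k x
        by_cases hB : (Bad X N k).Nonempty
        · rw [if_pos hB]
          calc δ = Real.exp (-Real.log (1 / δ)) := hexpL.symm
            _ ≤ Real.exp (-min (Real.log (1 / δ)) (a k x)) :=
              Real.exp_le_exp.2 (neg_le_neg (min_le_left _ _))
        · rw [if_neg hB]
      hi := by
        intro k x
        by_cases hB : (Bad X N k).Nonempty
        · rw [if_pos hB, ← hexp2]
          exact Real.exp_le_exp.2 (neg_le_neg (le_min hL2 (ha k x)))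
        · rw [if_neg hB]
          exact hδ2
      lip := by
        intro k x y
        have hd : 0 ≤ (N : ℝ) ^ (k + 1) * dist x y / 2 := by positivity
        by_cases hB : (Bad X N k).Nonempty
        · rw [if_pos hB, if_pos hB, ← Real.exp_add]
          apply Real.exp_le_exp.2
          have h1 : Metric.infDist x (Bad X N k) ≤ Metric.infDist y (Bad X N k) + dist x y :=
            Metric.infDist_le_infDist_add_dist
          have hNk : (0 : ℝ) ≤ (N : ℝ) ^ (k + 1) := by positivity
          have h2 : a k x ≤ a k y + (N : ℝ) ^ (k + 1) * dist x y / 2 := by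
            show Real.log 2 + (N : ℝ) ^ (k + 1) * Metric.infDist x (Bad X N k) / 2 ≤
              Real.log 2 + (N : ℝ) ^ (k + 1) * Metric.infDist y (Bad X N k) / 2 + _
            nlinarith [mul_le_mul_of_nonneg_left h1 hNk]
          have h3 : min (Real.log (1 / δ)) (a k x) ≤
              min (Real.log (1 / δ)) (a k y) + (N : ℝ) ^ (k + 1) * dist x y / 2 := by
            rcases le_total (Real.log (1 / δ)) (a k y) with h | h
            · rw [min_eq_left h]
              exact (min_le_left _ _).trans (by linarith)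
            · rw [min_eq_right h]
              exact (min_le_right _ _).trans h2
          linarith
        · rw [if_neg hB, if_neg hB]
          have h1 : 1 ≤ Real.exp ((N : ℝ) ^ (k + 1) * dist x y / 2) := Real.one_le_exp hd
          nlinarith
      bad := by
        intro k x hx
        have hB : (Bad X N k).Nonempty := ⟨x, hx⟩
        have h1 : a k x = Real.log 2 := by
          show Real.log 2 + (N : ℝ) ^ (k + 1) * Metric.infDist x (Bad X N k) / 2 = _
          rw [Metric.infDist_zero_of_mem hx]
          simp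
        rw [if_pos hB, h1, min_eq_right hL2, hexp2] }
  refine ⟨W, fun k x hx => ?_⟩
  by_contra hcon
  push Not at hcon
  have hW : W.φ k x = if (Bad X N k).Nonempty then
      Real.exp (-min (Real.log (1 / δ)) (a k x)) else δ := rfl
  by_cases hB : (Bad X N k).Nonempty
  · rw [hW, if_pos hB] at hx
    have h1 : 1 / (N : ℝ) ^ k ≤ Metric.infDist x (Bad X N k) := (Metric.le_infDist hB).2 fun {y} hy => hcon y hy
    have hNk : (0 : ℝ) < (N : ℝ) ^ k := by positivity
    have h2 : (N : ℝ) ≤ (N : ℝ) ^ (k + 1) * Metric.infDist x (Bad X N k) := by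
      calc (N : ℝ) = (N : ℝ) ^ (k + 1) * (1 / (N : ℝ) ^ k) := by
            rw [pow_succ]
            field_simp
        _ ≤ _ := by gcongr
    have h3 : Real.log (1 / δ) ≤ a k x := by
      show Real.log (1 / δ) ≤ Real.log 2 + (N : ℝ) ^ (k + 1) * Metric.infDist x (Bad X N k) / 2
      have h4 : 0 ≤ Real.log 2 := Real.log_nonneg (by norm_num)
      linarith
    rw [min_eq_left h3, hexpL] at hx
    exact lt_irrefl _ hx
  · rw [hW, if_neg hB] at hx
    exact lt_irrefl _ hx

end MP09fff0
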