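import Pool.Agent.Lib.MP_09fff0_gt.Det.Met

/-! # MP_09fff0_gt: the deformed metric space is quasisymmetric to the given one

Proof: `Y` is a copy of `X` with the metric `D` of `exists_D` (`D x y = 0 → x = y` by the lower bound; make
the copy e.g. with a one-field structure, or take `Y := X` and use the instance argument explicitly).
The identity is a homeomorphism: for `x` fixed, `dist x y ≤ 1 / N ^ k` gives `D x y ≤ e * 2 ^ (-k)`, and
`dist x y ≥ 1 / N ^ k` gives `D x y ≥ e⁻¹ δ ^ k`. Quasisymmetry: for `x ≠ b`, `x ≠ a` let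
`1 / N ^ (k+1) < dist x a ≤ 1 / N ^ k` and `1 / N ^ (l+1) < dist x b ≤ 1 / N ^ l`. Then
`D x a ≤ e * pr k x`, `D x b ≥ e⁻¹ * pr (l+1) x ≥ e⁻¹ * δ * pr l x`. If `k ≥ l` then
`pr k x ≤ 2 ^ (-(k-l)) * pr l x` and `N ^ (-(k-l)) ≤ N t`, so the ratio is at most
`C * (N t) ^ α`, `α = log 2 / log N`; if `k < l` then `pr l x ≥ δ ^ (l-k) * pr k x` and `N ^ (l-k) ≤ N t`, so the
ratio is at most `C * (N t) ^ β`, `β = log (1/δ) / log N`, `C = e² / δ`. Take
`η t = C * ((N t) ^ α + (N t) ^ β)`, a homeomorphism of `[0, ∞)`. (`δ ≤ 1/2` follows from `lo`, `hi` if `X` is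
nonempty; the empty space is trivial.) -/

open MeasureTheory Set Filter Topology
open scoped ENNReal NNReal unitInterval

namespace MP09fff0

private theorem ysp_homeo {C α β : ℝ} (hC : 0 < C) (hα : 0 < α) (hβ : 0 < β) :
    ∃ η : ℝ≥0 ≃ₜ ℝ≥0, ∀ t : ℝ≥0, (η t : ℝ) = C * ((t : ℝ) ^ α + (t : ℝ) ^ β) := by
  set c : ℝ≥0 := ⟨C, hC.le⟩ with hc
  have hcC : (c : ℝ) = C := rfl
  have hc0 : 0 < c := hC
  set g : ℝ≥0 → ℝ≥0 := fun t => c * (t ^ α + t ^ β) with hg
  have hmono : StrictMono g := by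
    intro s t hst
    have h1 := NNReal.rpow_lt_rpow hst hα
    have h2 := NNReal.rpow_lt_rpow hst hβ
    exact mul_lt_mul_of_pos_left (add_lt_add h1 h2) hc0
  have hcont : Continuous g :=
    continuous_const.mul ((NNReal.continuous_rpow_const hα.le).add
      (NNReal.continuous_rpow_const hβ.le))
  have hsurj : Function.Surjective g := by
    intro y
    have h : y ∈ range g := by
      refine mem_range_of_exists_le_of_exists_ge hcont ⟨0, ?_⟩ ⟨(y / c) ^ (1 / α), ?_⟩
      · change c * (0 ^ α + 0 ^ β) ≤ y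
        rw [NNReal.zero_rpow hα.ne', NNReal.zero_rpow hβ.ne', add_zero, mul_zero]
        exact zero_le
      · change y ≤ c * (((y / c) ^ (1 / α)) ^ α + ((y / c) ^ (1 / α)) ^ β)
        rw [← NNReal.rpow_mul, one_div, inv_mul_cancel₀ hα.ne', NNReal.rpow_one, mul_add,
          mul_div_cancel₀ _ hc0.ne']
        exact le_self_add
    exact h
  refine ⟨(StrictMono.orderIsoOfSurjective g hmono hsurj).toHomeomorph, fun t => ?_⟩
  change ((c * (t ^ α + t ^ β) : ℝ≥0) : ℝ) = _
  rw [NNReal.coe_mul, NNReal.coe_add, NNReal.coe_rpow, NNReal.coe_rpow, hcC]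

private theorem ysp_low {X : Type} [MetricSpace X] {N : ℕ} {δ : ℝ} (hδ : 0 < δ) (W : Wt X N δ)
    (x : X) (k m : ℕ) : W.pr k x ≤ (1 / δ) ^ m * W.pr (k + m) x := by
  have h1 := W.le_pr_add hδ k m x
  have h2 : 0 < δ ^ m := pow_pos hδ m
  rw [one_div, inv_pow, ← div_eq_inv_mul, le_div_iff₀ h2]
  linarith

private theorem ysp_main {X : Type} [MetricSpace X] {N : ℕ} (hN : 13 ≤ N) {δ : ℝ} (hδ : 0 < δ)
    (hδ1 : δ ≤ 1 / 2) (W : Wt X N δ) {x : X} {t u v : ℝ} {ka kb : ℕ}
    (hu0 : 1 / (N : ℝ) ^ (ka + 1) < u) (hv : v ≤ 1 / (N : ℝ) ^ kb) (hv0 : 0 < v)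
    (huv : u ≤ t * v) :
    W.pr ka x ≤ (2 + 1 / δ) * (t ^ (Real.log 2 / Real.log N) +
      t ^ (Real.log (1 / δ) / Real.log N)) * W.pr kb x := by
  have hN4 : (4 : ℝ) ≤ N := by
    have : (13 : ℝ) ≤ N := by exact_mod_cast hN
    linarith
  have hN0 : (0 : ℝ) < N := by linarith
  have hN1 : (1 : ℝ) < N := by linarith
  have hlN : 0 < Real.log N := Real.log_pos hN1
  have h1δ : 1 < 1 / δ := by rw [lt_div_iff₀ hδ]; linarith
  have hupos : 0 < u := lt_trans (by positivity) hu0
  have ht : 0 < t := by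
    by_contra hc
    have : t * v ≤ 0 := mul_nonpos_of_nonpos_of_nonneg (not_lt.1 hc) hv0.le
    linarith
  have key : (N : ℝ) ^ kb < t * (N : ℝ) ^ (ka + 1) := by
    have h1 : 1 / (N : ℝ) ^ (ka + 1) < t * (1 / (N : ℝ) ^ kb) :=
      lt_of_lt_of_le hu0 (huv.trans (mul_le_mul_of_nonneg_left hv ht.le))
    rw [mul_one_div, div_lt_div_iff₀ (by positivity) (by positivity), one_mul] at h1
    exact h1
  have hNα : ∀ c : ℝ, 0 < c → (N : ℝ) ^ (Real.log c / Real.log N) = c := by
    intro c hc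
    rw [Real.rpow_def_of_pos hN0, mul_div_cancel₀ _ hlN.ne', Real.exp_log hc]
  have hα : 0 < Real.log 2 / Real.log N := div_pos (Real.log_pos (by norm_num)) hlN
  have hβ : 0 < Real.log (1 / δ) / Real.log N := div_pos (Real.log_pos h1δ) hlN
  have hpow : ∀ (c : ℝ) (m : ℕ), 0 < c →
      ((N : ℝ) ^ m) ^ (Real.log c / Real.log N) = c ^ m := by
    intro c m hc
    rw [← Real.rpow_natCast, ← Real.rpow_mul hN0.le, mul_comm, Real.rpow_mul hN0.le, hNα c hc,
      Real.rpow_natCast]
  have tα0 : 0 ≤ t ^ (Real.log 2 / Real.log N) := Real.rpow_nonneg ht.le _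
  have tβ0 : 0 ≤ t ^ (Real.log (1 / δ) / Real.log N) := Real.rpow_nonneg ht.le _
  have hΛb := W.pr_pos hδ kb x
  have hδ' : 0 < 1 / δ := by positivity
  rcases le_or_gt kb ka with hc | hc
  · obtain ⟨m, hm⟩ := Nat.exists_eq_add_of_le hc
    have h1 := W.pr_add_le hδ kb m x
    rw [← hm] at h1
    have h2 : 1 < t * (N : ℝ) ^ (m + 1) := by
      have e : (N : ℝ) ^ (ka + 1) = (N : ℝ) ^ kb * (N : ℝ) ^ (m + 1) := by
        rw [← pow_add, hm]; congr 1
      rw [e] at key
      have hp : 0 < (N : ℝ) ^ kb := by positivity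
      have key2 : (N : ℝ) ^ kb * 1 < (N : ℝ) ^ kb * (t * (N : ℝ) ^ (m + 1)) := by linarith
      exact lt_of_mul_lt_mul_left key2 hp.le
    have h3 : 1 ≤ t ^ (Real.log 2 / Real.log N) * 2 ^ (m + 1) := by
      have h4 := Real.one_le_rpow h2.le hα.le
      rwa [Real.mul_rpow ht.le (by positivity), hpow 2 (m + 1) (by norm_num)] at h4
    have h5 : ((1 : ℝ) / 2) ^ m ≤ 2 * t ^ (Real.log 2 / Real.log N) := by
      have hp : (0 : ℝ) < 2 ^ m := by positivity
      rw [one_div, inv_pow, inv_eq_one_div, div_le_iff₀ hp]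
      have e : t ^ (Real.log 2 / Real.log N) * 2 ^ (m + 1) =
          2 * t ^ (Real.log 2 / Real.log N) * 2 ^ m := by ring
      linarith
    refine h1.trans (mul_le_mul_of_nonneg_right (h5.trans ?_) hΛb.le)
    have e1 : (2 + 1 / δ) * (t ^ (Real.log 2 / Real.log N) +
      t ^ (Real.log (1 / δ) / Real.log N)) = 2 * t ^ (Real.log 2 / Real.log N) +
        (2 * t ^ (Real.log (1 / δ) / Real.log N) + 1 / δ * (t ^ (Real.log 2 / Real.log N) +
      t ^ (Real.log (1 / δ) / Real.log N))) := by ring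
    rw [e1]
    have : 0 ≤ 2 * t ^ (Real.log (1 / δ) / Real.log N) +
        1 / δ * (t ^ (Real.log 2 / Real.log N) + t ^ (Real.log (1 / δ) / Real.log N)) := by
      positivity
    linarith
  · obtain ⟨m, hm⟩ := Nat.exists_eq_add_of_lt hc
    have h1 := ysp_low hδ W x ka (m + 1)
    rw [show ka + (m + 1) = kb by omega] at h1
    have h2 : (N : ℝ) ^ m < t := by
      have e : (N : ℝ) ^ kb = (N : ℝ) ^ m * (N : ℝ) ^ (ka + 1) := by
        rw [← pow_add]; congr 1; omega
      rw [e] at key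
      exact lt_of_mul_lt_mul_right key (by positivity)
    have h3 : (1 / δ) ^ m ≤ t ^ (Real.log (1 / δ) / Real.log N) := by
      rw [← hpow (1 / δ) m hδ']
      exact Real.rpow_le_rpow (by positivity) h2.le hβ.le
    have h5 : (1 / δ) ^ (m + 1) ≤ 1 / δ * t ^ (Real.log (1 / δ) / Real.log N) := by
      rw [pow_succ, mul_comm]
      exact mul_le_mul_of_nonneg_left h3 hδ'.le
    refine h1.trans (mul_le_mul_of_nonneg_right (h5.trans ?_) hΛb.le)
    have e1 : (2 + 1 / δ) * (t ^ (Real.log 2 / Real.log N) +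
      t ^ (Real.log (1 / δ) / Real.log N)) = 1 / δ * t ^ (Real.log (1 / δ) / Real.log N) +
        (1 / δ * t ^ (Real.log 2 / Real.log N) + 2 * (t ^ (Real.log 2 / Real.log N) +
      t ^ (Real.log (1 / δ) / Real.log N))) := by ring
    rw [e1]
    have : 0 ≤ 1 / δ * t ^ (Real.log 2 / Real.log N) + 2 * (t ^ (Real.log 2 / Real.log N) +
      t ^ (Real.log (1 / δ) / Real.log N)) := by
      positivity
    linarith

/-- A copy of a type. -/
structure YCopy (X : Type) : Type where
  /-- the point -/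
  val : X

theorem exists_Y {X : Type} [MetricSpace X] (hX : ∀ x y : X, dist x y ≤ 1) {N : ℕ} (hN : 13 ≤ N)
    {δ : ℝ} (hδ : 0 < δ) (W : Wt X N δ) :
    ∃ (Y : Type) (_ : MetricSpace Y) (f : X ≃ₜ Y), QS f ∧
      ∀ x y k, dist x y ≤ 1 / (N : ℝ) ^ k → dist (f x) (f y) ≤ Real.exp 1 * W.pr k x := by
  obtain ⟨D, D0, Dc, Dt, Dup, Dlow⟩ := exists_D hX hN hδ W
  have hN13 : (13 : ℝ) ≤ N := by exact_mod_cast hN
  have hN0 : (0 : ℝ) < N := by linarith
  have hinv0 : 0 < 1 / (N : ℝ) := by positivity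
  have hinv1 : 1 / (N : ℝ) < 1 := by rw [div_lt_one hN0]; linarith
  have scale : ∀ r : ℝ, 0 < r → r ≤ 1 → ∃ k : ℕ, 1 / (N : ℝ) ^ (k + 1) < r ∧
      r ≤ 1 / (N : ℝ) ^ k := by
    intro r r0 r1
    obtain ⟨k, k1, k2⟩ := exists_nat_pow_near_of_lt_one r0 r1 hinv0 hinv1
    rw [one_div_pow] at k1 k2
    exact ⟨k, k1, k2⟩
  have e0 : 0 < Real.exp 1 := Real.exp_pos 1
  have e0' : 0 < Real.exp (-1) := Real.exp_pos (-1)
  have hee : Real.exp 1 * Real.exp (-1) = 1 := by rw [← Real.exp_add]; simp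
  have Dpos : ∀ x y, x ≠ y → 0 < D x y := by
    intro x y hxy
    obtain ⟨k, k1, -⟩ := scale (dist x y) (dist_pos.2 hxy) (hX x y)
    exact lt_of_lt_of_le (mul_pos e0' (W.pr_pos hδ (k + 1) x)) (Dlow x y (k + 1) k1.le)
  let mY : MetricSpace (YCopy X) :=
    { dist := fun p q => D p.val q.val
      dist_self := fun p => D0 p.val
      dist_comm := fun p q => Dc p.val q.val
      dist_triangle := fun p q r => Dt p.val q.val r.val
      eq_of_dist_eq_zero := fun {p q} h => by
        by_contra hpq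
        have hne : p.val ≠ q.val := by
          intro h'
          apply hpq
          cases p
          cases q
          simp only at h'
          rw [h']
        exact (Dpos _ _ hne).ne' h }
  have hdist : ∀ p q : YCopy X, dist p q = D p.val q.val := fun p q => rfl
  have hDnn : ∀ x y, 0 ≤ D x y := fun x y => by
    have := @dist_nonneg (YCopy X) _ ⟨x⟩ ⟨y⟩
    rwa [hdist] at this
  let f : X ≃ₜ YCopy X :=
    { toFun := fun x => ⟨x⟩
      invFun := fun p => p.val
      left_inv := fun x => rfl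
      right_inv := fun p => by cases p; rfl
      continuous_toFun := by
        rw [Metric.continuous_iff]
        intro x ε hε
        obtain ⟨k, hk⟩ := exists_pow_lt_of_lt_one (div_pos hε e0)
          (show (1 / 2 : ℝ) < 1 by norm_num)
        refine ⟨1 / (N : ℝ) ^ k, by positivity, fun a ha => ?_⟩
        rw [hdist, Dc]
        change D x a < ε
        have h1 := Dup x a k (by rw [dist_comm]; exact ha.le)
        have h2 := W.pr_le_pow hδ k x
        have h3 : Real.exp 1 * W.pr k x ≤ Real.exp 1 * (1 / 2) ^ k :=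
          mul_le_mul_of_nonneg_left h2 e0.le
        have h4 : Real.exp 1 * (1 / 2) ^ k < ε := by
          rw [lt_div_iff₀ e0] at hk
          linarith
        linarith
      continuous_invFun := by
        rw [Metric.continuous_iff]
        intro p ε hε
        obtain ⟨k, hk⟩ := exists_pow_lt_of_lt_one hε hinv1
        rw [one_div_pow] at hk
        refine ⟨Real.exp (-1) * W.pr k p.val, mul_pos e0' (W.pr_pos hδ k _), fun q hq => ?_⟩
        rw [hdist, Dc] at hq
        by_contra hcon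
        have h1 : 1 / (N : ℝ) ^ k ≤ dist p.val q.val := by
          rw [dist_comm]
          exact hk.le.trans (not_lt.1 hcon)
        have h2 := Dlow p.val q.val k h1
        linarith }
  refine ⟨YCopy X, mY, f, ?_, fun x y k hk => ?_⟩
  · rcases isEmpty_or_nonempty X with hE | ⟨⟨x₀⟩⟩
    · exact ⟨Homeomorph.refl _, fun x => (hE.false x).elim⟩
    · have hδ1 : δ ≤ 1 / 2 := (W.lo 0 x₀).trans (W.hi 0 x₀)
      have hlN : 0 < Real.log N := Real.log_pos (by linarith)
      have h1δ : 1 < 1 / δ := by rw [lt_div_iff₀ hδ]; linarith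
      have hα : 0 < Real.log 2 / Real.log N := div_pos (Real.log_pos (by norm_num)) hlN
      have hβ : 0 < Real.log (1 / δ) / Real.log N := div_pos (Real.log_pos h1δ) hlN
      have hC : 0 < Real.exp 1 * (2 + 1 / δ) * (Real.exp 1 / δ) := by positivity
      obtain ⟨η, hη⟩ := ysp_homeo hC hα hβ
      refine ⟨η, fun x a b t hab => ?_⟩
      change D x a ≤ η t * D x b
      rw [hη]
      by_cases hxa : x = a
      · rw [← hxa, D0]
        have := hDnn x b
        positivity
      · have ha0 : 0 < dist x a := dist_pos.2 hxa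
        have hxb : x ≠ b := by
          rintro rfl
          rw [dist_self, mul_zero] at hab
          linarith
        have hb0 : 0 < dist x b := dist_pos.2 hxb
        obtain ⟨ka, ka1, ka2⟩ := scale _ ha0 (hX x a)
        obtain ⟨kb, kb1, kb2⟩ := scale _ hb0 (hX x b)
        have h1 := Dup x a ka ka2
        have h2 := Dlow x b (kb + 1) kb1.le
        have h3 := W.le_pr_add hδ kb 1 x
        rw [pow_one] at h3
        have h4 := ysp_main hN hδ hδ1 W (x := x) ka1 kb2 hb0 hab
        have h5 : W.pr kb x ≤ Real.exp 1 / δ * D x b := by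
          rw [div_mul_eq_mul_div, le_div_iff₀ hδ]
          have h6 : Real.exp (-1) * (δ * W.pr kb x) ≤ D x b :=
            (mul_le_mul_of_nonneg_left h3 e0'.le).trans h2
          have h7 := mul_le_mul_of_nonneg_left h6 e0.le
          calc W.pr kb x * δ = (Real.exp 1 * Real.exp (-1)) * (δ * W.pr kb x) := by
                rw [hee]; ring
            _ = Real.exp 1 * (Real.exp (-1) * (δ * W.pr kb x)) := by ring
            _ ≤ _ := h7
        have hs : 0 ≤ (t : ℝ) ^ (Real.log 2 / Real.log N) +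
            (t : ℝ) ^ (Real.log (1 / δ) / Real.log N) := by positivity
        calc D x a ≤ Real.exp 1 * W.pr ka x := h1
          _ ≤ Real.exp 1 * ((2 + 1 / δ) * ((t : ℝ) ^ (Real.log 2 / Real.log N) +
                (t : ℝ) ^ (Real.log (1 / δ) / Real.log N)) * W.pr kb x) :=
              mul_le_mul_of_nonneg_left h4 e0.le
          _ ≤ Real.exp 1 * ((2 + 1 / δ) * ((t : ℝ) ^ (Real.log 2 / Real.log N) +
                (t : ℝ) ^ (Real.log (1 / δ) / Real.log N)) * (Real.exp 1 / δ * D x b)) := by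
              refine mul_le_mul_of_nonneg_left (mul_le_mul_of_nonneg_left h5 ?_) e0.le
              positivity
          _ = _ := by ring
  · exact Dup x y k hk

end MP09fff0
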